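import Mathlib

set_option autoImplicit false

namespace Pool.Agent.Results.MP_4ce577_al.Counter
open scoped commutatorElement

/-- `w` is a law of `G`: it evaluates to `1` under every substitution -/
def IsLaw (G : Type) [Group G] (w : FreeGroup ℕ) : Prop :=
  ∀ f : ℕ → G, FreeGroup.lift f w = 1

/-- `K` lies in the variety generated by `G`: every law of `G` is a law of `K` -/
def InVar (K G : Type) [Group K] [Group G] : Prop :=
  ∀ w : FreeGroup ℕ, IsLaw G w → IsLaw K w

abbrev M := Multiplicative (ZMod 2)

def σ : MulAut (M × M) where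
  toFun x := (x.2, x.1 * x.2)
  invFun x := (x.1 * x.2, x.1)
  left_inv := by decide
  right_inv := by decide
  map_mul' := by decide

abbrev K := (M × M) ⋊[zpowersHom (MulAut (M × M)) σ] Multiplicative ℤ

lemma lift_comp {A B : Type} [Group A] [Group B] (φ : A →* B) (f : ℕ → A) (w : FreeGroup ℕ) :
    φ (FreeGroup.lift f w) = FreeGroup.lift (fun i => φ (f i)) w := by
  rw [← MonoidHom.comp_apply]
  congr 1
  ext i; simp

lemma K_mem : InVar (commutator K) M := by
  intro w hw f
  have h : ∀ i, ∃ n : M × M, SemidirectProduct.inl n = (f i : K) := by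
    intro i
    have h1 : (f i : K) ∈ (SemidirectProduct.rightHom : K →* Multiplicative ℤ).ker :=
      Abelianization.commutator_subset_ker _ (f i).2
    rw [← SemidirectProduct.range_inl_eq_ker_rightHom] at h1
    exact h1
  choose n hn using h
  apply Subtype.ext
  have e := lift_comp (commutator K).subtype f w
  have e2 := lift_comp (SemidirectProduct.inl : M × M →* K) n w
  have e3 : FreeGroup.lift n w = 1 := by
    apply Prod.ext
    · exact (lift_comp (MonoidHom.fst M M) n w).trans (hw _)
    · exact (lift_comp (MonoidHom.snd M M) n w).trans (hw _)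
  rw [e3, map_one] at e2
  simp only [hn] at e2
  exact e.trans e2.symm

lemma law (H : Type) [Group H] (e : commutator H ≃* M) (x y : H) : x * x * y = y * (x * x) := by
  have hM : ∀ a b : M, a ≠ 1 → b ≠ 1 → a = b := by decide
  have hM2 : ∀ a : M, a * a = 1 := by decide
  have hc : x * y * x⁻¹ * y⁻¹ ∈ commutator H :=
    Subgroup.commutator_mem_commutator (Subgroup.mem_top x) (Subgroup.mem_top y)
  set c := x * y * x⁻¹ * y⁻¹ with hc'
  have hc2 : x * c * x⁻¹ ∈ commutator H := (inferInstance : (commutator H).Normal).conj_mem c hc x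
  have h1 : c * c = 1 := by
    have : (⟨c, hc⟩ * ⟨c, hc⟩ : commutator H) = 1 := e.injective (by rw [map_mul, hM2, map_one])
    exact congrArg Subtype.val this
  have h2 : x * c * x⁻¹ = c := by
    by_cases h : c = 1
    · simp [h]
    · have : (⟨x * c * x⁻¹, hc2⟩ : commutator H) = ⟨c, hc⟩ := by
        apply e.injective
        apply hM
        · rw [Ne, map_eq_one_iff _ e.injective]
          intro h'
          apply h
          have : x * c * x⁻¹ = 1 := congrArg Subtype.val h'
          simpa using this
        · rw [Ne, map_eq_one_iff _ e.injective]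
          intro h'
          exact h (congrArg Subtype.val h')
      exact congrArg Subtype.val this
  have h3 : x * x * y = (x * c * x⁻¹) * c * (y * (x * x)) := by rw [hc']; group
  rw [h3, h2, h1, one_mul]

lemma integrable : Nonempty (commutator (DihedralGroup 4) ≃* M) := by
  have h : commutator (DihedralGroup 4) = Subgroup.zpowers (DihedralGroup.r 2) := by
    apply le_antisymm
    · rw [commutator, Subgroup.commutator_le]
      intro a _ b _
      have : ∀ a b : DihedralGroup 4, ⁅a, b⁆ = 1 ∨ ⁅a, b⁆ = DihedralGroup.r 2 := by decide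
      rcases this a b with h | h <;> rw [h]
      · exact one_mem _
      · exact Subgroup.mem_zpowers _
    · rw [Subgroup.zpowers_le]
      have : (DihedralGroup.r 2 : DihedralGroup 4) =
          ⁅(DihedralGroup.r 1 : DihedralGroup 4), (DihedralGroup.sr 0 : DihedralGroup 4)⁆ := by
        decide
      rw [this]
      exact Subgroup.commutator_mem_commutator (Subgroup.mem_top _) (Subgroup.mem_top _)
  have hc : Nat.card (commutator (DihedralGroup 4)) = 2 := by
    rw [h, Nat.card_zpowers]
    exact orderOf_eq_prime (by decide) (by decide)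
  have : Fact (Nat.Prime 2) := ⟨Nat.prime_two⟩
  exact ⟨mulEquivOfPrimeCardEq hc (by simp)⟩

theorem result : ∃ (G : Type) (_ : Group G) (_ : Finite G),
    (∃ (H : Type) (_ : Group H), Nonempty (commutator H ≃* G)) ∧
    ∀ (H : Type) [Group H], Nonempty (commutator H ≃* G) →
      ∃ (K : Type) (_ : Group K), InVar (commutator K) G ∧ ¬ InVar K H := by
  refine ⟨M, inferInstance, inferInstance, ⟨DihedralGroup 4, inferInstance, integrable⟩,
    fun H _ ⟨e⟩ => ⟨K, inferInstance, K_mem, fun h => ?_⟩⟩
  have h1 := h (FreeGroup.of 0 * FreeGroup.of 0 * FreeGroup.of 1 *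
    (FreeGroup.of 1 * (FreeGroup.of 0 * FreeGroup.of 0))⁻¹)
    (fun f => by
      simp only [map_mul, map_inv, FreeGroup.lift_apply_of]
      rw [law H e, mul_inv_cancel])
    (fun i => if i = 0 then SemidirectProduct.inr (Multiplicative.ofAdd 1)
      else SemidirectProduct.inl (Multiplicative.ofAdd 1, 1))
  simp only [map_mul, map_inv, FreeGroup.lift_apply_of, if_true, one_ne_zero, if_false] at h1
  have h2 := congrArg SemidirectProduct.left (mul_inv_eq_one.1 h1)
  simp only [SemidirectProduct.mul_left, SemidirectProduct.mul_right, SemidirectProduct.left_inr,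
    SemidirectProduct.right_inr, SemidirectProduct.left_inl, SemidirectProduct.right_inl,
    map_one, map_mul, one_mul, mul_one, zpowersHom_apply, toAdd_ofAdd, zpow_one,
    MulAut.mul_apply] at h2
  revert h2
  decide

end Pool.Agent.Results.MP_4ce577_al.Counter
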